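import Mathlib
import Pool.Agent.MP_a43263_nt.UV.All
import Pool.Agent.MP_a43263_nt.JC.Pres

namespace Pool.Agent.Results.MP_a43263_nt.AllOddHyperelliptic

open Pool.Agent.MP_a43263_nt JP Filter Finset Polynomial

/-- The polynomial `x ^ (2 g + 1) + c₂ x ^ (2 g - 1) + ⋯ + c_(2 g + 1)`; here `c i` is `c_(i + 2)`. -/
noncomputable def model (g : ℕ) (c : Fin (2 * g) → ℤ) : ℚ[X] :=
  X ^ (2 * g + 1) + ∑ i, C (c i : ℚ) * X ^ (2 * g - 1 - i.1)

/-- The coefficient vectors of height at most `H`, that is `|c_k| ≤ H ^ k` for all `k`. -/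
noncomputable def box (g H : ℕ) : Finset (Fin (2 * g) → ℤ) :=
  Fintype.piFinset fun i => Icc (-(H : ℤ) ^ (i.1 + 2)) ((H : ℤ) ^ (i.1 + 2))

theorem result (g : ℕ) (hg : 1 ≤ g) : ∃ ε : ℝ, 0 < ε ∧ ∀ᶠ H : ℕ in atTop,
    ∃ T ⊆ box g H, ε * (box g H).card ≤ T.card ∧ ∀ c ∈ T, Irreducible (model g c) ∧
      Finite (JQ (model g c)) ∧ (∀ P : JQ (model g c), 2 • P = 0 → P = 0) ∧
      ∀ k : ℕ, ∀ x ∈ JSha (model g c), 2 ^ k • x = 0 → x = 0 := by
  classical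
  obtain ⟨ε, h0, h⟩ := UV.main g hg
  refine ⟨ε, h0, h.mono fun H k => ⟨(box g H).filter fun c => UV.Good (UV.bg g c),
    filter_subset _ _, ?_, fun c hc => (mem_filter.1 hc).2⟩⟩
  have e : ∀ c, c ∈ box g H ↔ ∀ i, |c i| ≤ (H : ℤ) ^ (i.1 + 2) := fun c => by
    simp only [box, Fintype.mem_piFinset, mem_Icc, abs_le]
  rw [← Set.ncard_coe_finset, ← Set.ncard_coe_finset, coe_filter]
  simp only [e]
  rwa [show (box g H : Set (Fin (2 * g) → ℤ)) = _ from Set.ext e]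

end Pool.Agent.Results.MP_a43263_nt.AllOddHyperelliptic
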