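import Pool.Agent.MP_a43263_nt.JC.Main
import Pool.Agent.MP_a43263_nt.JC.Ex
import Pool.Agent.MP_a43263_nt.JC.Pres
import Pool.Agent.MP_a43263_nt.JM.All

namespace Pool.Agent.Results.MP_a43263_nt.JacobianPencil

open Pool.Agent.MP_a43263_nt JP Filter Finset
open JC (HS)

theorem result :
    (∀ (g n r : ℕ) (F : HS g n), F.Hyp r →
      ∃ c : ℝ, 0 < c ∧ ∀ᶠ H : ℕ in atTop, ∃ T ⊆ Icc (-H : ℤ) H ×ˢ Icc (-H : ℤ) H,
        c * (H : ℝ) ^ 2 ≤ T.card ∧ ∀ v ∈ T, IsCoprime v.1 v.2 ∧ (F.fibre v).Separable ∧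
          AddGroup.FG (JQ (F.fibre v)) ∧ Module.rank ℤ (JQ (F.fibre v)) = r ∧
          ∀ k : ℕ, ∀ x ∈ JSha (F.fibre v), 2 ^ k • x = 0 → x = 0) ∧
    ∀ g r : ℕ, 1 ≤ g → r ≤ 2 → ∃ F : HS g 2, F.Hyp r := by
  constructor
  · intro g n r F hF
    classical
    obtain ⟨c, hc, h⟩ := JC.main g n r F hF
    refine ⟨c, hc, h.mono fun H hH => ⟨_, filter_subset _ _, hH, fun v hv => ?_⟩⟩
    obtain ⟨h0, h1, h2, h3, h4⟩ := (mem_filter.1 hv).2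
    have hi : Function.Injective fun i => (F.aZ v i : ℚ) := by
      rw [F.fibre_eq, JC.fp] at h1
      exact Polynomial.separable_prod_X_sub_C_iff.1 h1
    obtain ⟨a, b⟩ := JM.mwAll _ g (F.aZ v) _ ⟨JC.card_Vx g, hF.pos, hi, F.fibre_eq v⟩
      (by rw [h4]; positivity)
    exact ⟨h0, h1, a, b _ r h3 h4, h2⟩
  · intro g r hg hr
    obtain ⟨c, p, q, h⟩ := JC.exs g r hg hr
    exact ⟨_, h⟩

end Pool.Agent.Results.MP_a43263_nt.JacobianPencil
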