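import Mathlib
import Pool.Agent.MP_a43263_nt.JU.Rank
import Pool.Agent.MP_a43263_nt.JC.Pres

namespace Pool.Agent.Results.MP_a43263_nt.JacobianUniversalFamily

open Pool.Agent.MP_a43263_nt JP Filter Finset Polynomial

/-- A monic polynomial `f` of odd degree such that `y ^ 2 = f(x)` is the hyperelliptic curve
`y ^ 2 = ∏ (x - a i)` with the `n + 1` rational roots `a i`. For odd `n` the last root has been
moved to infinity. -/
noncomputable def model {n : ℕ} (a : Fin (n + 1) → ℤ) : ℚ[X] :=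
  if Even n then ∏ i, (X - C (a i : ℚ))
  else ∏ i : Fin n, (X + C (∏ j ∈ univ.erase i, ((a j.castSucc : ℚ) - a (Fin.last n))))

theorem result (n : ℕ) (hn : 2 ≤ n) : ∃ c : ℝ, 0 < c ∧ ∀ᶠ H : ℕ in atTop,
    ∃ T ⊆ Fintype.piFinset fun _ : Fin (n + 1) => Icc (-H : ℤ) H,
      c * (H : ℝ) ^ (n + 1) ≤ T.card ∧ ∀ a ∈ T, Function.Injective a ∧
        (∀ k : ℕ, ∀ x ∈ JSha (model a), 2 ^ k • x = 0 → x = 0) ∧
        AddGroup.FG (JQ (model a)) ∧ Module.rank ℤ (JQ (model a)) = (n % 2 : ℕ) ∧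
        Nat.card {P : JQ (model a) // 2 • P = 0} = 4 ^ (n / 2) := by
  have e : ∀ a : Fin (n + 1) → ℤ, model a = JU.model fun i => (a i : ℚ) := fun a => by
    simp only [model, JU.model, JC.fp, JU.cv, map_neg, sub_neg_eq_add]
  classical
  obtain ⟨c, h0, h⟩ := JU.main n hn
  refine ⟨c, h0, h.mono fun H k => ⟨_, filter_subset _ _, k, fun a ha => ?_⟩⟩
  obtain ⟨h1, h2⟩ := (mem_filter.1 ha).2
  obtain ⟨h3, h4⟩ := JU.rank hn h1 h2
  rw [e a]
  exact ⟨h1, h2.1, h3, h4, h2.2.1.trans (pow_mul 2 2 _)⟩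

end Pool.Agent.Results.MP_a43263_nt.JacobianUniversalFamily
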