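import Mathlib
import Pool.Agent.MP_a43263_nt.two.Fams

namespace Pool.Agent.Results.MP_a43263_nt.RankFiveSixSeven

open Pool.Agent.MP_a43263_nt

theorem result (r : ℕ) (h5 : 5 ≤ r) (h7 : r ≤ 7) :
    ∃ (n : ℕ) (α β : Fin n → ℤ) (M : ℕ) (x₀ y₀ : ℤ) (i₀ : Fin n), 0 < M ∧
      (∀ i j, i ≠ j → α i * β j ≠ α j * β i) ∧ (∀ i, Int.gcd (α i) (β i) = 1) ∧
      (∀ i, 0 < α i * x₀ + β i * y₀ ∧ Prime (α i * x₀ + β i * y₀) ∧ ¬α i * x₀ + β i * y₀ ∣ M) ∧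
      (∀ p : ℕ, p.Prime → p ≤ n → p ∣ M) ∧
      ∀ x y : ℤ, x ≡ x₀ [ZMOD M] → y ≡ y₀ [ZMOD M] →
        (∀ i, 0 < α i * x + β i * y ∧ Prime (α i * x + β i * y)) →
        ∃ (E : WeierstrassCurve ℚ) (_ : E.IsElliptic), Module.rank ℤ (Pt E ℚ) = r ∧
          (∀ k : ℕ, ∀ s ∈ Sha E, 2 ^ k • s = 0 → s = 0) ∧ α i₀ * x + β i₀ * y ∣ E.j.den := by
  interval_cases r
  exacts [Two.F5.concl, Two.F6.concl, Two.F7.concl]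

end Pool.Agent.Results.MP_a43263_nt.RankFiveSixSeven
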