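import Mathlib
import Pool.Agent.MP_a43263_nt.W1.All

namespace Pool.Agent.Results.MP_a43263_nt.RankOneTwists

open Pool.Agent.MP_a43263_nt VJ Filter Finset Polynomial

/-- The polynomial `c₀ + c₁ x + ⋯ + c_(2 g + 2) x ^ (2 g + 2)`. -/
noncomputable def form (g : ℕ) (c : Fin (2 * g + 3) → ℤ) : ℚ[X] := ∑ i, C (c i : ℚ) * X ^ i.1

/-- The coefficient vectors of height at most `H`, that is `|c_i| ≤ H` for all `i`. -/
noncomputable def box (g H : ℕ) : Finset (Fin (2 * g + 3) → ℤ) :=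
  Fintype.piFinset fun _ => Icc (-(H : ℤ)) H

theorem result (g : ℕ) (hg : 2 ≤ g) : ∃ ε : ℝ, 0 < ε ∧ ∀ᶠ H : ℕ in atTop,
    ∃ T ⊆ box g H, ε * (box g H).card ≤ T.card ∧ ∀ c ∈ T,
      (form g c).natDegree = 2 * g + 2 ∧ Irreducible (form g c) ∧
      ∃ S : Finset ℤ, ε * Real.log H ≤ S.card ∧ ∀ D ∈ S, Squarefree D ∧
        (∃ a : ℤ, |(a : ℝ)| ≤ Real.log H ^ 7 ∧ (form g c).eval (a : ℚ) = D) ∧
        Module.Finite ℤ (JQ (C (D : ℚ) * form g c)) ∧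
        Module.finrank ℤ (JQ (C (D : ℚ) * form g c)) = 1 ∧
        (∀ P : JQ (C (D : ℚ) * form g c), 2 • P = 0 → P = 0) ∧
        ∀ x ∈ JSha (C (D : ℚ) * form g c), ∀ k : ℕ, 2 ^ k • x = 0 → x = 0 := by
  classical
  obtain ⟨ε, h0, h⟩ := W1.thmW g hg
  refine ⟨ε, h0, h.mono fun H k => ⟨(box g H).filter fun c => W1.Best2 g H ε (form g c),
    filter_subset _ _, ?_, fun c hc => (mem_filter.1 hc).2⟩⟩
  have e : ∀ c, c ∈ box g H ↔ ∀ i, |c i| ≤ (H : ℤ) := fun c => by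
    simp only [box, Fintype.mem_piFinset, mem_Icc, abs_le]
  rw [← Set.ncard_coe_finset, ← Set.ncard_coe_finset, coe_filter]
  simp only [e]
  rwa [show (box g H : Set (Fin (2 * g + 3) → ℤ)) = _ from Set.ext e]

end Pool.Agent.Results.MP_a43263_nt.RankOneTwists
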