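import Mathlib
import Pool.Agent.MP_a43263_nt.G7.All
import Pool.Agent.MP_a43263_nt.G7.Data

namespace Pool.Agent.Results.MP_a43263_nt.RankSixSeven

open Pool.Agent.MP_a43263_nt

theorem result (r : ℕ) (h6 : 6 ≤ r) (h7 : r ≤ 7) :
    {j : ℚ | ∃ (E : WeierstrassCurve ℚ) (_ : E.IsElliptic), Module.rank ℤ (Pt E ℚ) = r ∧
      (∀ k : ℕ, ∀ s ∈ Sha E, 2 ^ k • s = 0 → s = 0) ∧ E.j = j}.Infinite := by
  interval_cases r
  exacts [G7.D6.inf G7.eqdAll, G7.D7.inf G7.eqdAll]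

end Pool.Agent.Results.MP_a43263_nt.RankSixSeven
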