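import Mathlib
import Pool.Agent.MP_a43263_nt.K2.All
import Pool.Agent.MP_a43263_nt.JC.Pres

namespace Pool.Agent.Results.MP_a43263_nt.RankTwo

open Pool.Agent.MP_a43263_nt JP Filter Finset Polynomial

/-- The polynomial `x ^ (2 g + 1) + c₁ x ^ (2 g) + ⋯ + c_(2 g) x + m ^ 2`; here `c.1 i` is
`c_(i + 1)` and `c.2` is `m`. -/
noncomputable def model (g : ℕ) (c : (Fin (2 * g) → ℤ) × ℤ) : ℚ[X] :=
  X ^ (2 * g + 1) + ∑ i, C (c.1 i : ℚ) * X ^ (2 * g - i.1) + C ((c.2 : ℚ) ^ 2)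

/-- The vectors of height at most `H`, that is `|c_k| ≤ H ^ (2 k)` for all `k` and
`|m| ≤ H ^ (2 g + 1)`. -/
noncomputable def box (g H : ℕ) : Finset ((Fin (2 * g) → ℤ) × ℤ) :=
  (Fintype.piFinset fun i => Icc (-(H : ℤ) ^ (2 * i.1 + 2)) ((H : ℤ) ^ (2 * i.1 + 2))) ×ˢ
    Icc (-(H : ℤ) ^ (2 * g + 1)) ((H : ℤ) ^ (2 * g + 1))

theorem result (g : ℕ) (hg : 1 ≤ g) : ∃ ε : ℝ, 0 < ε ∧ ∀ᶠ H : ℕ in atTop,
    ∃ T ⊆ box g H, ε * (box g H).card ≤ T.card ∧ ∀ c ∈ T, Irreducible (model g c) ∧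
      ∃ (u v G : ℕ) (F : ℚ[X]), 0 < u ∧ 0 < v ∧
        (u : ℝ) ≤ Real.log H ^ 7 ∧ (v : ℝ) ≤ Real.log H ^ 7 ∧
        (G : ℚ) = (v : ℚ) ^ (4 * g + 2) * (model g c).eval (-(u : ℚ) ^ 2 / (v : ℚ) ^ 2) ∧
        Squarefree G ∧ H ^ (4 * g) ≤ G ∧ F.Monic ∧ F.natDegree = 2 * g + 1 ∧ Irreducible F ∧
        (∀ x l : ℚ, l = (v : ℚ) ^ 2 * x + (u : ℚ) ^ 2 → l ≠ 0 →
          F.eval (G / l) * l ^ (2 * g + 2) =
            ((G : ℚ) ^ g * (v : ℚ) ^ (2 * g + 1)) ^ 2 * (l * (model g c).eval x)) ∧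
        Module.Finite ℤ (JQ F) ∧ Module.finrank ℤ (JQ F) = 2 ∧
        (∀ P : JQ F, 2 • P = 0 → P = 0) ∧
        ∀ k : ℕ, ∀ x ∈ JSha F, 2 ^ k • x = 0 → x = 0 := by
  obtain ⟨ε, h0, h⟩ := K2.pres K2.main g hg
  exact ⟨ε, h0, h.mono fun H k => k (box g H) fun c => by
    simp only [box, mem_product, Fintype.mem_piFinset, mem_Icc, abs_le]⟩

end Pool.Agent.Results.MP_a43263_nt.RankTwo
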