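import Mathlib
import Pool.Agent.MP_a43263_nt.R2.Main

namespace Pool.Agent.Results.MP_a43263_nt.RankTwoPositiveProportion

open Pool.Agent.MP_a43263_nt Filter Finset

/-- The curve `y ^ 2 = x (x - a) (x - b)`. -/
def curve (a b : ℚ) : WeierstrassCurve ℚ := ⟨0, -(a + b), 0, a * b, 0⟩

/-- The fibre over `t = (α, β)` of the elliptic surface with parameters `u, v, w, z`. -/
def fam (u v w z : ℕ) (t : ℕ × ℕ) : WeierstrassCurve ℚ :=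
  curve ((t.1 * u ^ 2 + t.2 * w ^ 2) * (t.1 * v ^ 2 + t.2 * z ^ 2))
    ((t.1 * u ^ 2 + t.2 * z ^ 2) * (t.1 * v ^ 2 + t.2 * w ^ 2))

theorem result : ∃ (K : ℕ) (c : ℝ), 0 < c ∧ ∀ᶠ X : ℕ in atTop,
    ∃ u ∈ Icc 1 K, ∃ v ∈ Icc 1 K, ∃ w ∈ Icc 1 K, ∃ z ∈ Icc 1 K, ∃ T ⊆ Icc 1 X ×ˢ Icc 1 X,
      c * (X : ℝ) ^ 2 ≤ T.card ∧
      (∀ t ∈ T, t.1.Coprime t.2 ∧ (fam u v w z t).IsElliptic ∧
        Module.rank ℤ (Pt (fam u v w z t) ℚ) = 2 ∧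
        ∀ k : ℕ, ∀ x ∈ Sha (fam u v w z t), 2 ^ k • x = 0 → x = 0) ∧
      ∀ s ∈ T, ∀ t ∈ T, ∀ [(fam u v w z s).IsElliptic] [(fam u v w z t).IsElliptic],
        (fam u v w z s).j = (fam u v w z t).j → s = t := by
  obtain ⟨K, c, hc, h⟩ := R2.main_j R2.main
  refine ⟨K, c, hc, h.mono ?_⟩
  rintro X ⟨u, hu, v, hv, w, hw, z, hz, T, h1, h2, h3, h4⟩
  refine ⟨u, hu, v, hv, w, hw, z, hz, T, h1, h2, h3, fun s hs t ht _ _ e => h4 hs ht ?_⟩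
  rwa [R2.j_eq_jv, R2.j_eq_jv] at e

/-- One fixed surface has positive upper density. -/
theorem fixed : ∃ (u v w z : ℕ) (c : ℝ), 0 < c ∧ ∃ᶠ X : ℕ in atTop,
    ∃ T ⊆ Icc 1 X ×ˢ Icc 1 X, c * (X : ℝ) ^ 2 ≤ T.card ∧
      (∀ t ∈ T, t.1.Coprime t.2 ∧ (fam u v w z t).IsElliptic ∧
        Module.rank ℤ (Pt (fam u v w z t) ℚ) = 2 ∧
        ∀ k : ℕ, ∀ x ∈ Sha (fam u v w z t), 2 ^ k • x = 0 → x = 0) ∧
      ∀ s ∈ T, ∀ t ∈ T, ∀ [(fam u v w z s).IsElliptic] [(fam u v w z t).IsElliptic],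
        (fam u v w z s).j = (fam u v w z t).j → s = t := by
  obtain ⟨K, c, hc, h⟩ := result
  by_contra hn
  simp only [not_exists, not_and, not_frequently] at hn
  have h1 := (eventually_all_finset (Icc 1 K)).2 fun u _ => (eventually_all_finset (Icc 1 K)).2
    fun v _ => (eventually_all_finset (Icc 1 K)).2 fun w _ =>
      (eventually_all_finset (Icc 1 K)).2 fun z _ => hn u v w z c hc
  obtain ⟨X, ⟨u, hu, v, hv, w, hw, z, hz, T, t1, t2, t3, t4⟩, h2⟩ := (h.and h1).exists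
  exact h2 u hu v hv w hw z hz T t1 t2 t3 t4

end Pool.Agent.Results.MP_a43263_nt.RankTwoPositiveProportion
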