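import Mathlib
import Pool.Agent.MP_a43263_nt.Main

namespace Pool.Agent.Results.MP_a43263_nt.RankTwoSha3

open Pool.Agent.MP_a43263_nt

theorem result (r s : ℕ) (h9 : 9 ∣ s) (h7 : ¬7 ∣ s) (h7' : ¬7 ∣ r + s) (h13 : 13 ∣ r + 12 * s)
    (hr : r % 9 = 4 ∨ r % 9 = 7)
    (hp : ∀ c ∈ ({0, 9, 14, 16, 21, 30} : Finset ℕ), (r + c * s).Prime)
    (hq : ∀ q : ℕ, q.Prime → q % 3 = 1 → q ∣ s * (r + 12 * s) * (r + 18 * s) → q = 7 ∨ q = 13)
    (E : WeierstrassCurve ℚ)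
    (hE : E = ⟨3 * (r ^ 2 + 30 * r * s + 252 * s ^ 2), 0,
      r * (r + 9 * s) * (r + 14 * s) * (r + 16 * s) * (r + 21 * s) * (r + 30 * s), 0, 0⟩) :
    E.IsElliptic ∧ Module.rank ℤ (Pt E ℚ) = 2 ∧ ∀ k : ℕ, ∀ x ∈ Sha E, 3 ^ k • x = 0 → x = 0 := by
  obtain ⟨a, b, F⟩ : ∃ a b,
      Fam s (r + 14 * s) (r + 16 * s) (r + 9 * s) r (r + 21 * s) (r + 30 * s) a b :=
    ⟨_, _, rfl, rfl, rfl, rfl, rfl, rfl, rfl, h9, h7, h7', h13, hr, hp 14 (by simp),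
      hp 16 (by simp), hp 9 (by simp), by simpa using hp 0 (by simp), hp 21 (by simp),
      hp 30 (by simp), hq⟩
  obtain rfl : E = WW a b := by
    rw [hE, F.ea, F.eb]
    ext <;> push_cast <;> ring
  refine ⟨⟨Ne.isUnit fun h => (isW F.hb F.hc ℚ).delta ?_⟩, F.main⟩
  rw [WeierstrassCurve.baseChange, WeierstrassCurve.map_Δ, h, map_zero]

/-- The hypotheses of `result` hold for `(r, s) = (9133, 306)`. -/
theorem hypotheses_hold : ∃ r s : ℕ, 9 ∣ s ∧ ¬7 ∣ s ∧ ¬7 ∣ r + s ∧ 13 ∣ r + 12 * s ∧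
    (r % 9 = 4 ∨ r % 9 = 7) ∧ (∀ c ∈ ({0, 9, 14, 16, 21, 30} : Finset ℕ), (r + c * s).Prime) ∧
    ∀ q : ℕ, q.Prime → q % 3 = 1 → q ∣ s * (r + 12 * s) * (r + 18 * s) → q = 7 ∨ q = 13 := by
  refine ⟨9133, 306, by norm_num, by norm_num, by norm_num, by norm_num, by norm_num, ?_, ?_⟩
  · simp only [Finset.mem_insert, Finset.mem_singleton]
    rintro c (rfl | rfl | rfl | rfl | rfl | rfl) <;> norm_num
  · intro q hq h1 h2
    rw [show 306 * (9133 + 12 * 306) * (9133 + 18 * 306) =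
      2 * 3 * 3 * 17 * 5 * 13 * 197 * 11 * 11 * 11 * 11 by norm_num] at h2
    have key : ∀ p : ℕ, p.Prime → (q ∣ p ↔ q = p) := fun p hp => Nat.prime_dvd_prime_iff_eq hq hp
    simp only [hq.dvd_mul, key 2 (by norm_num), key 3 (by norm_num), key 17 (by norm_num),
      key 5 (by norm_num), key 13 (by norm_num), key 197 (by norm_num), key 11 (by norm_num)] at h2
    omega

end Pool.Agent.Results.MP_a43263_nt.RankTwoSha3
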